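import Pool.Agent.helper45.PV.SpecG

set_option autoImplicit false

open scoped Matrix Topology

namespace Pool.Agent.PV

open Pool.Agent.CZ

theorem IDC (hPTH : PTH_stmt) : IDC_stmt := by
  intro ι _ _ p hp
  letI : NormedRing (Matrix ι ι ℂ) := Matrix.linftyOpNormedRing
  letI : NormedAlgebra ℂ (Matrix ι ι ℂ) := Matrix.linftyOpNormedAlgebra
  haveI : CompleteSpace (Matrix ι ι ℂ) := inferInstanceAs (CompleteSpace (ι → ι → ℂ))
  obtain ⟨W, W', h0, h⟩ := hPTH (Matrix ι ι ℂ) p hp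
  obtain ⟨h1, h2, h3⟩ := h 1
  exact ⟨⟨W 1, W' 1, h2, h1⟩, h3.symm⟩

end Pool.Agent.PV
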