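import Pool.Agent.helper45.PV.SpecG

set_option autoImplicit false

open scoped Matrix Topology

namespace Pool.Agent.PV

open Pool.Agent.CZ

theorem K1E_surj (t : UnitAddCircle) : ∃ s : unitInterval, ((s : ℝ) : UnitAddCircle) = t := by
  obtain ⟨x, rfl⟩ := QuotientAddGroup.mk_surjective t
  refine ⟨⟨Int.fract x, Int.fract_nonneg x, (Int.fract_lt_one x).le⟩, ?_⟩
  exact AddCircle.coe_fract x

section

variable {C D : Type} [NormedRing C] [NormedAlgebra ℂ C] [NormedRing D] [NormedAlgebra ℂ D]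

theorem K1E_jinj (φ : C →ₐ[ℂ] D) (χ : D →ₐ[ℂ] ℂ) {ι : Type} (E F : Matrix ι ι (L1 D))
    (h : E.map (jm φ χ) = F.map (jm φ χ)) : E = F := by
  refine extL E F fun t => ?_
  obtain ⟨s, rfl⟩ := K1E_surj t
  rw [← (jmM φ χ E).1 s, ← (jmM φ χ F).1 s, h]

/-- a unit over the mapping cone from a unit of loops -/
theorem K1E_lift (φ : C →ₐ[ℂ] D) (χ : D →ₐ[ℂ] ℂ) (hLPM : LPM_stmt) {ι : Type} [Fintype ι] [DecidableEq ι]
    (X : (Matrix ι ι (MC φ))ˣ) (hg : (X : Matrix ι ι (MC φ)).map (gM φ) = 1)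
    (h0 : (X : Matrix ι ι (MC φ)).map (pM φ 0) = 1) :
    ∃ F : (Matrix ι ι (L1 D))ˣ, umap (jm φ χ).toRingHom F = X ∧
      (F : Matrix ι ι (L1 D)).map (pL D 0) = 1 := by
  have m1 : ∀ {A B : Type} [Ring A] [Ring B] (f : A →+* B), (1 : Matrix ι ι A).map f = 1 := fun f =>
    map_one f.mapMatrix
  have hg' : ((X⁻¹ : (Matrix ι ι (MC φ))ˣ) : Matrix ι ι (MC φ)).map (gM φ) = 1 := by
    have h := congrArg ((gM φ).toRingHom.mapMatrix) (Units.mul_inv X)
    rw [map_mul, map_one] at h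
    have h2 : (gM φ).toRingHom.mapMatrix (X : Matrix ι ι (MC φ)) = 1 := hg
    rw [h2, one_mul] at h
    exact h
  have h0' : ((X⁻¹ : (Matrix ι ι (MC φ))ˣ) : Matrix ι ι (MC φ)).map (pM φ 0) = 1 := by
    have h := congrArg ((pM φ 0).toRingHom.mapMatrix) (Units.mul_inv X)
    rw [map_mul, map_one] at h
    have h2 : (pM φ 0).toRingHom.mapMatrix (X : Matrix ι ι (MC φ)) = 1 := h0
    rw [h2, one_mul] at h
    exact h
  have key : ∀ E : Matrix ι ι (MC φ), E.map (gM φ) = 1 → E.map (pM φ 0) = 1 →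
      ∃ F : Matrix ι ι (L1 D), F.map (jm φ χ) = E ∧ F.map (pL D 0) = 1 := by
    intro E hE hE0
    have q : (1 : Matrix ι ι ℂ).map (algebraMap ℂ D) = 1 := m1 (algebraMap ℂ D)
    have q' : (1 : Matrix ι ι ℂ).map (algebraMap ℂ C) = 1 := m1 (algebraMap ℂ C)
    obtain ⟨F, hF, -, hF0, -⟩ := hLPM C D φ χ ι E 1 (by rw [hE0, q])
      (by rw [(endM φ χ E).2, hE, q]; exact m1 φ.toRingHom) (by rw [hE, q'])
    exact ⟨F, hF, by rw [hF0, q]⟩
  obtain ⟨F, hF, hF0⟩ := key _ hg h0
  obtain ⟨F', hF', -⟩ := key _ hg' h0'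
  have mm : ∀ A B : Matrix ι ι (L1 D), (A * B).map (jm φ χ) = A.map (jm φ χ) * B.map (jm φ χ) :=
    fun A B => map_mul (jm φ χ).toRingHom.mapMatrix A B
  have m2 : (1 : Matrix ι ι (L1 D)).map (jm φ χ) = 1 := m1 (jm φ χ).toRingHom
  have e1 : F * F' = 1 := K1E_jinj φ χ _ _ (by rw [mm, hF, hF', m2, Units.mul_inv])
  have e2 : F' * F = 1 := K1E_jinj φ χ _ _ (by rw [mm, hF, hF', m2, Units.inv_mul])
  refine ⟨⟨F, F', e1, e2⟩, Units.ext hF, hF0⟩

end

/-- the standard loop as an invertible `1 × 1` matrix over `L1 D` -/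
theorem K1E_loop (D : Type) [NormedRing D] [NormedAlgebra ℂ D] :
    ∃ z : (Matrix Unit Unit (L1 D))ˣ, (z : Matrix Unit Unit (L1 D)).map (vL D) = Matrix.of fun _ _ => zl D := by
  obtain ⟨a, ha⟩ := vL_ex (D := D) (zl D) 1 (by
    change (fourier 1 (0 : UnitAddCircle) : ℂ) • (1 : D) = algebraMap ℂ D 1
    rw [fourier_eval_zero, one_smul, map_one])
  obtain ⟨b, hb⟩ := vL_ex (D := D) (zi D) 1 (by
    change (fourier (-1) (0 : UnitAddCircle) : ℂ) • (1 : D) = algebraMap ℂ D 1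
    rw [fourier_eval_zero, one_smul, map_one])
  have h1 : a * b = 1 := vL_inj _ _ (by rw [map_mul, ha, hb, map_one]; exact (zU D).val_inv)
  have h2 : b * a = 1 := vL_inj _ _ (by rw [map_mul, ha, hb, map_one]; exact (zU D).inv_val)
  refine ⟨⟨Matrix.of fun _ _ => a, Matrix.of fun _ _ => b, ?_, ?_⟩, ?_⟩
  · ext i j
    rw [Matrix.mul_apply]
    simp [h1, Matrix.one_apply]
  · ext i j
    rw [Matrix.mul_apply]
    simp [h2, Matrix.one_apply]
  · refine Matrix.ext fun i j => ?_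
    exact ha

theorem K1E (hFUN : FUN_stmt) (hK0B : K0B_stmt) (hK1M : K1M_stmt) (hSX1 : SX1_stmt) (hBOT : BOT_stmt)
    (hCPL : CPL_stmt) (hS1S : S1S_stmt) (hSCP : SCP_stmt) (hLPM : LPM_stmt) : K1E_stmt := by
  intro C D _ _ _ _ _ _ φ χ hφ hχ hK ι _ _ X hg h0
  haveI := hCPL.1 D
  obtain ⟨F, hF, hF0⟩ := K1E_lift φ χ hLPM X hg h0
  obtain ⟨z, hz⟩ := K1E_loop D
  have hv : Continuous (vL D).toRingHom := vL_cont
  have hj : Continuous (jm φ χ).toRingHom := jm_cont φ χ hχ
  obtain ⟨be, d, b1, b2, b3, b4, b5⟩ := hBOT D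
  obtain ⟨-, s2⟩ := hSX1 (L1 D) C(UnitAddCircle, D) D (vL D) (el D) (cl D) hv (cl_cont D) (hS1S D)
  -- `be [1] = val_* [z]`
  have hb : be (unitCls D) = k1map (vL D).toRingHom hv (k1 z) := by
    have e : unitCls D = k0 (1 : Matrix Unit Unit D) (one_mul 1) := by
      rw [hK0B.2.2 D Unit (one_mul 1), Fintype.card_unit, one_smul]
    rw [e, k1map_k1]
    refine b1 Unit 1 (one_mul 1) _ ?_
    change (z : Matrix Unit Unit (L1 D)).map (vL D) = _
    have m1 : (1 : Matrix Unit Unit D).map (cl D) = 1 := map_one (cl D).toRingHom.mapMatrix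
    rw [hz, m1, sub_self, add_zero]
    refine Matrix.ext fun i j => ?_
    change zl D = zl D • (1 : Matrix Unit Unit C(UnitAddCircle, D)) i j
    rw [Subsingleton.elim i j, Matrix.one_apply_eq, smul_eq_mul, mul_one]
  -- `el_* val_* [F] = 0`
  have hw : k1map (el D).toRingHom (el_cont D) (k1map (vL D).toRingHom hv (k1 F)) = 0 := by
    rw [k1map_k1, k1map_k1]
    have e : umap (el D).toRingHom (umap (vL D).toRingHom F) = 1 := Units.ext hF0
    rw [e]
    exact (hK1M D ι 1 1).2.2.1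
  obtain ⟨a, ha⟩ := hK (d (k1map (vL D).toRingHom hv (k1 F)))
  have h5 := b5 (k1map (vL D).toRingHom hv (k1 F))
  rw [hw, map_zero, zero_add, ha, map_zsmul, hb] at h5
  have h6 := (s2 (k1 F - a • k1 z) 0 (by
    rw [map_sub, map_zsmul, map_zero, add_zero, sub_eq_zero]
    exact h5)).1
  have h7 : k1 F = a • k1 z := sub_eq_zero.1 h6
  -- `jm_* [z] = 0`
  have h8 : k1 (umap (jm φ χ).toRingHom z) = 0 := by
    have hzp : ∀ t, (z : Matrix Unit Unit (L1 D)).map (pL D t) = Matrix.of fun _ _ => zl D t := by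
      intro t
      refine Matrix.ext fun i j => ?_
      exact congrArg (fun f : C(UnitAddCircle, D) => f t) (congrFun (congrFun hz i) j)
    have e0 : zl D 0 = 1 := by
      change (fourier 1 (0 : UnitAddCircle) : ℂ) • (1 : D) = 1
      rw [fourier_eval_zero, one_smul]
    refine hSCP C D φ Unit ⟨fun s => Matrix.of fun _ _ => (fourier 1 ((s : ℝ) : UnitAddCircle) : ℂ), ?_⟩
      ?_ ?_ (umap (jm φ χ).toRingHom z) ?_ ?_
    · refine continuous_matrix fun i j => ?_
      exact (map_continuous (fourier 1)).comp qI.continuous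
    · intro s
      refine ⟨⟨Matrix.of fun _ _ => (fourier 1 ((s : ℝ) : UnitAddCircle) : ℂ),
        Matrix.of fun _ _ => (fourier (-1) ((s : ℝ) : UnitAddCircle) : ℂ), ?_, ?_⟩, rfl⟩
      · ext i j
        rw [Matrix.mul_apply]
        simp only [Matrix.of_apply, Finset.univ_unique, Finset.sum_singleton]
        rw [Subsingleton.elim i j, Matrix.one_apply_eq, ← fourier_add]
        simp
      · ext i j
        rw [Matrix.mul_apply]
        simp only [Matrix.of_apply, Finset.univ_unique, Finset.sum_singleton]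
        rw [Subsingleton.elim i j, Matrix.one_apply_eq, ← fourier_add]
        simp
    · refine Matrix.ext fun i j => ?_
      change (fourier 1 (((1 : unitInterval) : ℝ) : UnitAddCircle) : ℂ) = (1 : Matrix Unit Unit ℂ) i j
      rw [Subsingleton.elim i j, Matrix.one_apply_eq]
      have e : (((1 : unitInterval) : ℝ) : UnitAddCircle) = 0 := by
        simp
      rw [e, fourier_eval_zero]
    · intro s
      change ((z : Matrix Unit Unit (L1 D)).map (jm φ χ)).map (pM φ s) = _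
      rw [(jmM φ χ _).1 s, hzp]
      refine Matrix.ext fun i j => ?_
      change (fourier 1 ((s : ℝ) : UnitAddCircle) : ℂ) • (1 : D) =
        algebraMap ℂ D (fourier 1 ((s : ℝ) : UnitAddCircle) : ℂ)
      rw [Algebra.algebraMap_eq_smul_one]
    · change ((z : Matrix Unit Unit (L1 D)).map (jm φ χ)).map (gM φ) = 1
      rw [(jmM φ χ _).2]
      have e : (z : Matrix Unit Unit (L1 D)).map (eL χ) = 1 := by
        have h := hzp 0
        refine Matrix.ext fun i j => ?_
        change χ (((z : Matrix Unit Unit (L1 D)).map (pL D 0)) i j) = (1 : Matrix Unit Unit ℂ) i j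
        rw [h, Matrix.of_apply, e0, map_one, Subsingleton.elim i j, Matrix.one_apply_eq]
      rw [e]
      exact map_one (algebraMap ℂ C).mapMatrix
  have h9 : k1 X = k1map (jm φ χ).toRingHom hj (k1 F) := by
    rw [k1map_k1, hF]
  rw [h9, h7, map_zsmul, k1map_k1, h8, smul_zero]

end Pool.Agent.PV
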