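import Pool.Agent.helper53.PV.SpecF

/-!
# Project pv, row FEX: extension of positive functionals from `C(X₀)` to `C(X)`
-/

set_option autoImplicit false

open scoped Topology
open MeasureTheory Filter

namespace Pool.Agent.PV

open Pool.Agent.CZ

/-- composition with `π` -/
def FEX_T {X X₀ : Type} [TopologicalSpace X] [TopologicalSpace X₀] (π : C(X, X₀)) :
    C(X₀, ℝ) →ₗ[ℝ] C(X, ℝ) where
  toFun k := k.comp π
  map_add' _ _ := rfl
  map_smul' _ _ := rfl

theorem FEX_inj {X X₀ : Type} [TopologicalSpace X] [TopologicalSpace X₀] (π : C(X, X₀))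
    (hπ : Function.Surjective π) : Function.Injective (FEX_T π) := by
  intro k l h
  ext x
  obtain ⟨y, rfl⟩ := hπ x
  exact congrArg (fun f : C(X, ℝ) => f y) h

/-- the cone of the nonnegative functions -/
def FEX_cone (X : Type) [TopologicalSpace X] : PointedCone ℝ C(X, ℝ) where
  carrier := {f | ∀ x, 0 ≤ f x}
  add_mem' := by
    intro f g hf hg x
    exact add_nonneg (hf x) (hg x)
  zero_mem' := fun _ => le_refl _
  smul_mem' := by
    intro c f hf x
    exact mul_nonneg c.2 (hf x)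

theorem FEX : FEX_stmt := by
  intro X X₀ _ _ _ π hπ φ₀ hφ₀
  classical
  let e : C(X₀, ℝ) ≃ₗ[ℝ] LinearMap.range (FEX_T π) := LinearEquiv.ofInjective (FEX_T π) (FEX_inj π hπ)
  let f : C(X, ℝ) →ₗ.[ℝ] ℝ :=
    { domain := LinearMap.range (FEX_T π)
      toFun := φ₀.comp e.symm.toLinearMap }
  have hf : ∀ k : C(X₀, ℝ), f (e k) = φ₀ k := by
    intro k
    show φ₀ (e.symm (e k)) = φ₀ k
    rw [e.symm_apply_apply]
  have hex : ∀ x : f.domain, ∃ k : C(X₀, ℝ), x = e k := fun x => ⟨e.symm x, (e.apply_symm_apply x).symm⟩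
  have hek : ∀ k : C(X₀, ℝ), ((e k : LinearMap.range (FEX_T π)) : C(X, ℝ)) = k.comp π := fun k => rfl
  have h1 : ∀ x : f.domain, (x : C(X, ℝ)) ∈ FEX_cone X → 0 ≤ f x := by
    intro x hx
    obtain ⟨k, rfl⟩ := hex x
    rw [hf]
    apply hφ₀
    intro y
    obtain ⟨z, rfl⟩ := hπ y
    exact hx z
  have h2 : ∀ y : C(X, ℝ), ∃ x : f.domain, (x : C(X, ℝ)) + y ∈ FEX_cone X := by
    intro y
    refine ⟨e (ContinuousMap.const X₀ ‖y‖), ?_⟩
    rw [hek]
    intro x
    show 0 ≤ ‖y‖ + y x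
    have h := ContinuousMap.norm_coe_le_norm y x
    rw [Real.norm_eq_abs] at h
    linarith [neg_abs_le (y x)]
  obtain ⟨g, hg1, hg2⟩ := riesz_extension (FEX_cone X) f h1 h2
  refine ⟨g, fun k hk => hg2 k hk, fun k => ?_⟩
  rw [← hf k, ← hg1 (e k), hek]

end Pool.Agent.PV
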