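import Pool.Agent.helper53.PV.SpecF

/-!
# Project pv, row FRM: invariant states and invariant measures
-/

set_option autoImplicit false

open scoped Topology
open MeasureTheory Filter

namespace Pool.Agent.PV

open Pool.Agent.CZ CompactlySupported

theorem FRM_ext {X : Type} [TopologicalSpace X] [CompactSpace X]
    [TopologicalSpace.MetrizableSpace X] [MeasurableSpace X] [BorelSpace X] (μ ν : Measure X)
    [IsFiniteMeasure μ] [IsFiniteMeasure ν]
    (h : ∀ g : C(X, ℝ), ∫ x, g x ∂μ = ∫ x, g x ∂ν) : μ = ν := by
  let _ : MetricSpace X := TopologicalSpace.metrizableSpaceMetric X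
  apply ext_of_forall_integral_eq_of_IsFiniteMeasure
  intro f
  exact h f.toContinuousMap

theorem FRM_map {X : Type} [TopologicalSpace X] [CompactSpace X]
    [MeasurableSpace X] [BorelSpace X] (α : X ≃ₜ X) (μ : Measure X) (g : C(X, ℝ)) :
    ∫ x, g x ∂(μ.map α) = ∫ x, (g.comp (α : C(X, X))) x ∂μ := by
  rw [integral_map α.continuous.measurable.aemeasurable
    g.continuous.measurable.aestronglyMeasurable]
  rfl

/-- the positive functional on the functions with compact support -/
noncomputable def FRM_L {X : Type} [TopologicalSpace X] {α : X ≃ₜ X}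
    (φ : InvSt α) : C_c(X, ℝ) →ₚ[ℝ] ℝ :=
  PositiveLinearMap.mk₀
    { toFun := fun g => φ.φ (g : C(X, ℝ))
      map_add' := fun _ _ => φ.φ.map_add _ _
      map_smul' := fun _ _ => φ.φ.map_smul _ _ }
    (fun _ hg => φ.nonneg _ fun x => hg x)

theorem FRM : FRM_stmt := by
  intro X _ _ _ _ _ α
  let _ : MetricSpace X := TopologicalSpace.metrizableSpaceMetric X
  refine ⟨?_, ?_, ?_⟩
  · intro φ
    have h1 : ∀ g : C(X, ℝ), ∫ x, g x ∂(RealRMK.rieszMeasure (FRM_L φ)) = φ.φ g := by
      intro g
      let g' : C_c(X, ℝ) := { toFun := g, hasCompactSupport' := HasCompactSupport.of_compactSpace _ }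
      have h2 := RealRMK.integral_rieszMeasure (FRM_L φ) g'
      exact h2
    have hprob : IsProbabilityMeasure (RealRMK.rieszMeasure (FRM_L φ)) := by
      have h2 := h1 1
      rw [φ.one] at h2
      simp only [ContinuousMap.one_apply, integral_const, smul_eq_mul, mul_one] at h2
      constructor
      have h3 : (RealRMK.rieszMeasure (FRM_L φ)).real Set.univ = 1 := h2
      rw [measureReal_def] at h3
      rw [← ENNReal.toReal_eq_one_iff]
      exact h3
    refine ⟨⟨RealRMK.rieszMeasure (FRM_L φ), hprob, ?_⟩, h1⟩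
    have hfin : IsFiniteMeasure ((RealRMK.rieszMeasure (FRM_L φ)).map α) := by infer_instance
    apply FRM_ext
    intro g
    rw [FRM_map, h1, h1, φ.inv]
  · intro μ
    have := μ.prob
    refine ⟨⟨{ toFun := fun g => ∫ x, g x ∂μ.μ, map_add' := ?_, map_smul' := ?_ }, ?_, ?_, ?_⟩,
      fun g => rfl⟩
    · intro g h
      exact integral_add (g.continuous.integrable_of_hasCompactSupport
        (HasCompactSupport.of_compactSpace _)) (h.continuous.integrable_of_hasCompactSupport
        (HasCompactSupport.of_compactSpace _))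
    · intro c g
      exact integral_const_mul c _
    · intro f hf
      exact integral_nonneg hf
    · show ∫ x, (1 : C(X, ℝ)) x ∂μ.μ = 1
      simp
    · intro f
      show ∫ x, (f.comp (α : C(X, X))) x ∂μ.μ = ∫ x, f x ∂μ.μ
      rw [← FRM_map, μ.inv]
  · intro μ ν h
    have := μ.prob
    have := ν.prob
    exact FRM_ext _ _ h

end Pool.Agent.PV
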