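import Pool.Agent.helper72.PV.SpecH

/-!
# Project pv, block H, row QKR: the kernel of `Q` consists of coboundaries
-/

set_option autoImplicit false

open Finset

namespace Pool.Agent.PVH

open Pool.Agent.PV Pool.Agent.CZ

theorem QKR (hFAC : FAC_stmt) (hTSM : TSM_stmt) (hOST : OST_stmt) : QKR_stmt := by
  intro H _ P g n h M pr th hT hH Q hQ s hs f hf
  obtain ⟨k, F, hF⟩ := hFAC n h pr f
  rw [hQ f k F hF] at hf
  unfold Qv at hf
  have hkill := hH.kill k (fun v => ∑ i ∈ range (h k v), F (v, i)) hf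
  have hsum : ∀ v', v' < n (k + 1) → ∑ j ∈ range (h (k + 1) v'), F (pr k (v', j)) = 0 := by
    intro v' hv'
    rw [hTSM n h M pr hT k v' F hv']
    exact hkill v' hv'
  let G : ℕ × ℕ → ℤ := fun p => ∑ j ∈ range p.2, F (pr k (p.1, j))
  refine ⟨⟨fun x => G (x.1 (k + 1)), (continuous_of_discreteTopology (f := G)).comp
    ((continuous_apply (k + 1)).comp continuous_subtype_val)⟩, ?_⟩
  intro x
  show f x = G ((s x).1 (k + 1)) - G (x.1 (k + 1))
  obtain ⟨h1, h2, -⟩ := hOST n h M pr hT s hs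
  have hx := x.2 k
  have hx1 := x.2 (k + 1)
  have hfx : f x = F (pr k (x.1 (k + 1))) := by
    rw [hF x, ← hx.2]
  have hsym : (x.1 (k + 1)).1 < n (k + 1) ∧ (x.1 (k + 1)).2 < h (k + 1) (x.1 (k + 1)).1 := hx1.1
  rcases Nat.lt_or_ge ((x.1 (k + 1)).2 + 1) (h (k + 1) (x.1 (k + 1)).1) with hlt | hge
  · rw [h1 x (k + 1) hlt, hfx]
    show _ = ∑ j ∈ range ((x.1 (k + 1)).2 + 1), F (pr k ((x.1 (k + 1)).1, j)) -
      ∑ j ∈ range (x.1 (k + 1)).2, F (pr k ((x.1 (k + 1)).1, j))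
    rw [Finset.sum_range_succ]
    ring
  · have heq : (x.1 (k + 1)).2 + 1 = h (k + 1) (x.1 (k + 1)).1 := by omega
    have h3 := h2 x (k + 1) heq
    have h4 : G ((s x).1 (k + 1)) = 0 := by
      show ∑ j ∈ range ((s x).1 (k + 1)).2, F (pr k (((s x).1 (k + 1)).1, j)) = 0
      rw [h3]
      simp
    rw [h4, hfx]
    have h5 := hsum _ hsym.1
    rw [← heq, Finset.sum_range_succ] at h5
    show _ = 0 - ∑ j ∈ range (x.1 (k + 1)).2, F (pr k ((x.1 (k + 1)).1, j))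
    have h6 : pr k ((x.1 (k + 1)).1, (x.1 (k + 1)).2) = pr k (x.1 (k + 1)) := rfl
    rw [h6] at h5
    linarith

end Pool.Agent.PVH
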