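import Pool.Agent.helper72.PV.SpecH

/-!
# Project pv, block H, row QPS: unit, positive preimages, surjectivity, positivity
-/

set_option autoImplicit false

open Finset

namespace Pool.Agent.PVH

open Pool.Agent.PV Pool.Agent.CZ

/-- the continuous function given by `F` on level `k` -/
def QPS_f {n : ℕ → ℕ} {h : ℕ → ℕ → ℕ} {pr : ℕ → ℕ × ℕ → ℕ × ℕ} (k : ℕ) (F : ℕ × ℕ → ℤ) :
    C(↥(Om n h pr), ℤ) :=
  ⟨fun x => F (x.1 k), (continuous_of_discreteTopology (f := F)).comp
    ((continuous_apply k).comp continuous_subtype_val)⟩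

theorem QPS (hFAC : FAC_stmt) (hOCC : OCC_stmt) : QPS_stmt := by
  intro H _ P g hS n h M pr th hT hH Q hQ
  have hone : Q 1 = g := by
    rw [hQ 1 0 (fun _ => 1) (fun x => rfl), ← hH.unit 0]
    unfold Qv
    refine Finset.sum_congr rfl fun v _ => ?_
    simp
  have hpos : ∀ x, P x → ∃ f : C(↥(Om n h pr), ℤ), (∀ t, 0 ≤ f t) ∧ Q f = x := by
    intro x hx
    obtain ⟨k, c, hc⟩ := hH.span x hx
    refine ⟨QPS_f k (fun p => if p.2 = 0 then (c p.1 : ℤ) else 0), ?_, ?_⟩
    · intro t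
      show (0 : ℤ) ≤ if (t.1 k).2 = 0 then (c (t.1 k).1 : ℤ) else 0
      split_ifs
      · exact Int.natCast_nonneg _
      · exact le_refl _
    · rw [hQ _ k (fun p => if p.2 = 0 then (c p.1 : ℤ) else 0) (fun t => rfl), hc]
      unfold Qv
      refine Finset.sum_congr rfl fun v hv => ?_
      have h1 : ∑ i ∈ range (h k v), (if i = 0 then (c v : ℤ) else 0) = c v := by
        rw [Finset.sum_ite_eq' (range (h k v)) 0 (fun _ => (c v : ℤ)), if_pos]
        exact Finset.mem_range.2 (hT.hpos k v (Finset.mem_range.1 hv))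
      simp only
      rw [h1, natCast_zsmul]
  refine ⟨hone, hpos, ?_, ?_⟩
  · intro x
    obtain ⟨N, _, hN⟩ := hS.arch g (-x) hS.unit
    obtain ⟨f, _, hf⟩ := hpos _ hN
    refine ⟨f - N • (1 : C(↥(Om n h pr), ℤ)), ?_⟩
    rw [map_sub, map_nsmul, hone, hf]
    abel
  · intro f hf
    obtain ⟨k, F, hF⟩ := hFAC n h pr f
    rw [hQ f k F hF]
    unfold Qv
    have h1 : ∀ v ∈ range (n k), (∑ i ∈ range (h k v), F (v, i)) • th k v =
        (∑ i ∈ range (h k v), F (v, i)).toNat • th k v := by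
      intro v hv
      have h2 : 0 ≤ ∑ i ∈ range (h k v), F (v, i) := by
        refine Finset.sum_nonneg fun i hi => ?_
        obtain ⟨x, hx⟩ := hOCC n h M pr hT k (v, i) ⟨Finset.mem_range.1 hv, Finset.mem_range.1 hi⟩
        rw [← hx, ← hF x]
        exact hf x
      rw [← natCast_zsmul, Int.toNat_of_nonneg h2]
    rw [Finset.sum_congr rfl h1]
    exact hS.sum_nsmul' (range (n k)) (fun v => (∑ i ∈ range (h k v), F (v, i)).toNat) (th k)
      (fun v hv => hH.pos k v (Finset.mem_range.1 hv))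

end Pool.Agent.PVH
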