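import Pool.Agent.helper45.PV.SpecG

set_option autoImplicit false

open scoped Matrix Topology

namespace Pool.Agent.PV

open Pool.Agent.CZ

theorem LC1 (hFUN : FUN_stmt) (hSX0 : SX0_stmt) (hCPL : CPL_stmt) (hS1S : S1S_stmt) : LC1_stmt := by
  intro D _ _ _ χ hχ de h1 h2
  obtain ⟨hid, hcomp, -, -, -⟩ := hFUN
  haveI := hCPL.1 D
  obtain ⟨s1, s2⟩ := hSX0 (L1 D) C(UnitAddCircle, D) D (vL D) (el D) (cl D) χ (hS1S D)
  have e1 : ∀ x : K0 (L1 D), k0map (el D).toRingHom (k0map (vL D).toRingHom x) =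
      k0map (algebraMap ℂ D) (k0map (eL χ).toRingHom x) := by
    intro x
    have h : (el D).toRingHom.comp (vL D).toRingHom = (algebraMap ℂ D).comp (eL χ).toRingHom :=
      RingHom.ext fun h => L1_eq χ h
    rw [← hcomp, ← hcomp, h]
  have e2 : ∀ y : K0 D, k0map (el D).toRingHom (k0map (cl D).toRingHom y) = y := by
    intro y
    have h : (el D).toRingHom.comp (cl D).toRingHom = RingHom.id D := RingHom.ext fun _ => rfl
    rw [← hcomp, h, hid]
  have e3 : ∀ z : K0 ℂ, k0map χ.toRingHom (k0map (algebraMap ℂ D) z) = z := by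
    intro z
    have h : χ.toRingHom.comp (algebraMap ℂ D) = RingHom.id ℂ := RingHom.ext fun c => χ.commutes c
    rw [← hcomp, h, hid]
  constructor
  · intro x hx hde
    have h3 := h1 _ (by rw [e1, hx, map_zero]) hde
    exact (s2 x 0 (map_zero _) (by rw [h3, map_zero, add_zero])).1
  · intro y
    obtain ⟨z, hz, hzy⟩ := h2 y
    obtain ⟨x, y', hy', hz'⟩ := s1 z
    have h3 := hz
    rw [hz', map_add, e1, e2] at h3
    have h4 : k0map (eL χ).toRingHom x = 0 := by
      have h := congrArg (k0map χ.toRingHom) h3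
      rw [map_add, e3, hy', add_zero, map_zero] at h
      exact h
    have h5 : y' = 0 := by
      rw [h4, map_zero, zero_add] at h3
      exact h3
    refine ⟨x, h4, ?_⟩
    rw [← hzy, hz', h5, map_zero, add_zero]

end Pool.Agent.PV
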