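import Pool.Agent.helper72.PV.SpecH

/-!
# Project pv, block H, row QHM: the dimension homomorphism is well defined
-/

set_option autoImplicit false

open Finset

namespace Pool.Agent.PVH

open Pool.Agent.PV Pool.Agent.CZ

theorem QHM_congr {H : Type} [AddCommGroup H] (n : ℕ → ℕ) (h : ℕ → ℕ → ℕ) (th : ℕ → ℕ → H)
    (k : ℕ) (F F' : ℕ × ℕ → ℤ) (hF : ∀ p, Sym n h k p → F p = F' p) :
    Qv n h th k F = Qv n h th k F' := by
  unfold Qv
  refine Finset.sum_congr rfl fun v hv => ?_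
  congr 1
  refine Finset.sum_congr rfl fun i hi => ?_
  exact hF (v, i) ⟨Finset.mem_range.1 hv, Finset.mem_range.1 hi⟩

theorem QHM_raise (hQLV : QLV_stmt) {H : Type} [AddCommGroup H] (P : H → Prop) (g : H)
    (n : ℕ → ℕ) (h : ℕ → ℕ → ℕ) (M : ℕ → ℕ → ℕ → ℕ) (pr : ℕ → ℕ × ℕ → ℕ × ℕ)
    (th : ℕ → ℕ → H) (hT : TSys n h M pr) (hH : THom P g n h M th) (k : ℕ) (F : ℕ × ℕ → ℤ)
    (k' : ℕ) (hk : k ≤ k') :
    ∃ F' : ℕ × ℕ → ℤ, (∀ x : ↥(Om n h pr), F (x.1 k) = F' (x.1 k')) ∧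
      Qv n h th k' F' = Qv n h th k F := by
  induction k', hk using Nat.le_induction with
  | base => exact ⟨F, fun _ => rfl, rfl⟩
  | succ m hm ih =>
    obtain ⟨F', h1, h2⟩ := ih
    refine ⟨fun p => F' (pr m p), fun x => ?_, ?_⟩
    · rw [h1 x]
      exact congrArg F' (x.2 m).2
    · rw [hQLV H P g n h M pr th hT hH m F', h2]

theorem QHM_uniq (hOCC : OCC_stmt) (hQLV : QLV_stmt) {H : Type} [AddCommGroup H]
    (P : H → Prop) (g : H)
    (n : ℕ → ℕ) (h : ℕ → ℕ → ℕ) (M : ℕ → ℕ → ℕ → ℕ) (pr : ℕ → ℕ × ℕ → ℕ × ℕ)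
    (th : ℕ → ℕ → H) (hT : TSys n h M pr) (hH : THom P g n h M th) (k k' : ℕ)
    (F F' : ℕ × ℕ → ℤ) (hF : ∀ x : ↥(Om n h pr), F (x.1 k) = F' (x.1 k')) :
    Qv n h th k F = Qv n h th k' F' := by
  obtain ⟨G, h1, h2⟩ := QHM_raise hQLV P g n h M pr th hT hH k F (max k k') (le_max_left _ _)
  obtain ⟨G', h1', h2'⟩ :=
    QHM_raise hQLV P g n h M pr th hT hH k' F' (max k k') (le_max_right _ _)
  rw [← h2, ← h2']
  apply QHM_congr
  intro p hp
  obtain ⟨x, hx⟩ := hOCC n h M pr hT (max k k') p hp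
  rw [← hx, ← h1 x, ← h1' x, hF x]

theorem QHM (hFAC : FAC_stmt) (hOCC : OCC_stmt) (hQLV : QLV_stmt) : QHM_stmt := by
  intro H _ P g n h M pr th hT hH
  choose kk FF hkF using hFAC n h pr
  have hval : ∀ (f : C(↥(Om n h pr), ℤ)) (k : ℕ) (F : ℕ × ℕ → ℤ), (∀ x, f x = F (x.1 k)) →
      Qv n h th (kk f) (FF f) = Qv n h th k F := by
    intro f k F hF
    apply QHM_uniq hOCC hQLV P g n h M pr th hT hH
    intro x
    rw [← hkF f x, ← hF x]
  refine ⟨AddMonoidHom.mk' (fun f => Qv n h th (kk f) (FF f)) ?_, ?_⟩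
  · intro f f'
    obtain ⟨G, h1, h2⟩ := QHM_raise hQLV P g n h M pr th hT hH (kk f) (FF f)
      (max (kk f) (kk f')) (le_max_left _ _)
    obtain ⟨G', h1', h2'⟩ := QHM_raise hQLV P g n h M pr th hT hH (kk f') (FF f')
      (max (kk f) (kk f')) (le_max_right _ _)
    have h3 : Qv n h th (kk (f + f')) (FF (f + f')) =
        Qv n h th (max (kk f) (kk f')) (fun p => G p + G' p) := by
      apply hval
      intro x
      rw [← h1 x, ← h1' x, ← hkF f x, ← hkF f' x]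
      rfl
    show Qv n h th (kk (f + f')) (FF (f + f')) = Qv n h th (kk f) (FF f) + Qv n h th (kk f') (FF f')
    rw [h3, ← h2, ← h2']
    unfold Qv
    rw [← Finset.sum_add_distrib]
    refine Finset.sum_congr rfl fun v _ => ?_
    rw [Finset.sum_add_distrib, add_smul]
  · intro f k F hF
    exact hval f k F hF

end Pool.Agent.PVH
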